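import Pool.Agent.W572.CoordC

/-!
# Potential density of rational points on triple covers with generating curves of genus at most one

The number field `k₀`, the polynomial `Φ` and the families of curves are arbitrary; the families
may be defined over the algebraic closure. See `Pool.Agent.W572.Defs` and
`Pool.Agent.W572.DefsC` for the definitions.
-/

set_option autoImplicit false

open MvPolynomial AlgebraicGeometry CategoryTheory Pool.Agent.W572

namespace Pool.Agent.Results.MP_9410e4_ag.CubicTripleCovers

/-- Let `k₀` be a number field and `Φ` a polynomial in `n` variables over `k₀`. Suppose given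
`m ≥ 1` families of polynomial curves `t ↦ λᵢ(y, t)`, `λᵢ(y, 0) = y`, in affine `n`-space over the
algebraic closure on which the triple cover `w³ = Φ` has geometric genus at most one (up to the
cube of a polynomial the restriction of `Φ` has degree at most `3`), and a point `r` with
`Φ(r) = 0` at which every velocity vector field `d/dt λᵢ(y, t) |_{t = 0}` is transversal to the
hypersurface `Φ = 0`, and at which these vector fields generate the tangent space under Lie
brackets. Then every scheme `X` over `k₀` to which the triple cover `w³ = Φ(y)` admits a dominant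
rational map over `k₀` is potentially dense. -/
theorem result (k₀ : Type) [Field k₀] [NumberField k₀] (n m : ℕ) (hm : 0 < m)
    (Φ : MvPolynomial (Fin n) k₀) (c : Fin m → CurveFamily (AlgebraicClosure k₀) n)
    (hgenus : ∀ i, (c i).TripleGenusAtMostOne (map (algebraMap k₀ (AlgebraicClosure k₀)) Φ))
    (r : Fin n → AlgebraicClosure k₀) (hr : aeval r Φ = 0)
    (htrans : ∀ i, (c i).TransversalAt (map (algebraMap k₀ (AlgebraicClosure k₀)) Φ) r)
    (hgen : BracketGenerating c r)
    (X : Scheme.{0}) (sX : X ⟶ Spec (.of k₀))
    (f : (tripleCover Φ).PartialMap X) (hf : IsDominant f.hom)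
    (hfk : f.hom ≫ sX = f.domain.ι ≫ tripleCoverStr Φ) :
    PotentiallyDense sX :=
  main_triple k₀ n m hm Φ c hgenus r hr htrans hgen sX f hf hfk

/-- The case of the coordinate lines, as an example: `Φ` has degree at most `3` in each of its
`n ≥ 1` variables, and some irreducible factor of multiplicity one of `Φ` over the algebraic
closure involves all the variables. This applies to smooth cyclic triple covers of `(ℙ¹)ⁿ` branched
along divisors of multidegree `(3, …, 3)`, which are Calabi-Yau. -/
theorem coordinate_lines (k₀ : Type) [Field k₀] [NumberField k₀] (n : ℕ) (hn : 0 < n)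
    (Φ : MvPolynomial (Fin n) k₀) (hdeg : ∀ i, Φ.degreeOf i ≤ 3)
    (P : MvPolynomial (Fin n) (AlgebraicClosure k₀)) (hP : Irreducible P)
    (hdvd : P ∣ map (algebraMap k₀ (AlgebraicClosure k₀)) Φ)
    (hsq : ¬ P ^ 2 ∣ map (algebraMap k₀ (AlgebraicClosure k₀)) Φ)
    (hvar : ∀ i, P.degreeOf i ≠ 0)
    (X : Scheme.{0}) (sX : X ⟶ Spec (.of k₀))
    (f : (tripleCover Φ).PartialMap X) (hf : IsDominant f.hom)
    (hfk : f.hom ≫ sX = f.domain.ι ≫ tripleCoverStr Φ) :
    PotentiallyDense sX :=
  coordinate_caseC k₀ n hn Φ hdeg P hP hdvd hsq hvar sX f hf hfk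

end Pool.Agent.Results.MP_9410e4_ag.CubicTripleCovers
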