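import Pool.Agent.W572.G.Points

/-!
# Potential density from self-maps preserving fibrations in curves

The number field `k₀` and the irreducible hypersurface `F = 0` (every variety is birational to one)
are arbitrary; the self-maps and fibrations may be defined over the algebraic closure. See
`Pool.Agent.W572.Defs` and `Pool.Agent.W572.G.Defs` for the definitions.
-/

set_option autoImplicit false

open MvPolynomial AlgebraicGeometry CategoryTheory Pool.Agent.W572 Pool.Agent.W572.G

namespace Pool.Agent.Results.MP_9410e4_ag.FibredSelfMaps

/-- Let `k₀` be a number field, `F` a polynomial over `k₀` in `N` variables which is irreducible over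
the algebraic closure, and `r` a smooth point of the hypersurface `F = 0` over the algebraic
closure. Suppose given rational self-maps `g₁, …, g_m` of the hypersurface over the algebraic
closure, different from the identity and regular at `r` with `gᵢ(r) = r`, such that `gᵢ` preserves a
fibration `πᵢ` in curves which is smooth at `r`, with multiplier `μᵢ ≠ 0` along the fibre at `r`
which is `1` or not a root of unity. Suppose that vector fields tangent to the fibres of
`π₁, …, π_m` generate the tangent space at `r` under Lie brackets. Then every scheme `X` over `k₀`
to which the hypersurface admits a dominant rational map over `k₀` is potentially dense. -/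
theorem result (k₀ : Type) [Field k₀] [NumberField k₀] (N m : ℕ)
    (F : MvPolynomial (Fin N) k₀)
    (hF : Irreducible (map (algebraMap k₀ (AlgebraicClosure k₀)) F))
    (r : Fin N → AlgebraicClosure k₀) (hr : aeval r F = 0)
    (hsmooth : ∃ l, aeval r (pderiv l F) ≠ 0)
    (g : Fin m → FibredSelfMap (map (algebraMap k₀ (AlgebraicClosure k₀)) F) r)
    (hgen : TangentGenerating (map (algebraMap k₀ (AlgebraicClosure k₀)) F)
      (fun i => (g i).velocity) r)
    (X : Scheme.{0}) (sX : X ⟶ Spec (.of k₀))
    (f : (hypersurface F).PartialMap X) (hf : IsDominant f.hom)
    (hfk : f.hom ≫ sX = f.domain.ι ≫ hypersurfaceStr F) :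
    PotentiallyDense sX :=
  Pool.Agent.W572.G.main k₀ F hF r hr hsmooth g hgen sX f hf hfk

end Pool.Agent.Results.MP_9410e4_ag.FibredSelfMaps
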