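import Pool.Agent.W572.G.Normal

/-!
# Potential density of rational points on hypersurfaces with plane sections of genus at most one

The number field `k₀` and the polynomial `F` are arbitrary. The theorems apply to Calabi-Yau
hypersurfaces of degree `(2, …, 2; 3, …, 3)` in products `(ℙ¹)ᵃ × (ℙ²)ᵇ`, in affine coordinates (two
variables of a factor `ℙ²` for a cubic pair, variables of two factors `ℙ¹` for a quadratic pair).
See `Pool.Agent.W572.Defs`, `Pool.Agent.W572.G.Defs` and `Pool.Agent.W572.G.PlaneDefs` for the
definitions.
-/

set_option autoImplicit false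

open MvPolynomial AlgebraicGeometry CategoryTheory Pool.Agent.W572 Pool.Agent.W572.G

namespace Pool.Agent.Results.MP_9410e4_ag.PlaneSections

/-- Let `k₀` be a number field, `F` a polynomial over `k₀` in `N` variables which is irreducible over
the algebraic closure, and `r` a point over the algebraic closure. Let `m ≥ 1` pairs of variables be
given, each of them cubic or quadratic at the point `r` of the hypersurface `F = 0`: the plane
sections in these variables are plane cubics, with a flex at `r`, or double covers of the line with
at most four branch points, ramified at `r`. Suppose that the tangent vector fields of the plane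
sections generate the tangent space of the hypersurface at `r` under Lie brackets. Then every
scheme `X` over `k₀` to which the hypersurface admits a dominant rational map over `k₀` is
potentially dense. -/
theorem result (k₀ : Type) [Field k₀] [NumberField k₀] (N m : ℕ)
    (F : MvPolynomial (Fin N) k₀)
    (hF : Irreducible (map (algebraMap k₀ (AlgebraicClosure k₀)) F))
    (r : Fin N → AlgebraicClosure k₀)
    (p s : Fin m → Fin N) (hm : 0 < m) (hps : ∀ i, p i ≠ s i)
    (hpt : ∀ i, CubicPoint (map (algebraMap k₀ (AlgebraicClosure k₀)) F) (p i) (s i) r ∨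
      QuadraticPoint (map (algebraMap k₀ (AlgebraicClosure k₀)) F) (p i) (s i) r)
    (hgen : TangentGenerating (map (algebraMap k₀ (AlgebraicClosure k₀)) F)
      (fun i => planeField (map (algebraMap k₀ (AlgebraicClosure k₀)) F) (p i) (s i)) r)
    (X : Scheme.{0}) (sX : X ⟶ Spec (.of k₀))
    (f : (hypersurface F).PartialMap X) (hf : IsDominant f.hom)
    (hfk : f.hom ≫ sX = f.domain.ι ≫ hypersurfaceStr F) :
    PotentiallyDense sX :=
  Pool.Agent.W572.G.main_pairs k₀ N m F hF r p s hm hps hpt hgen X sX f hf hfk

/-- A criterion with second derivatives: the pairs of variables involve all the variables, and the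
graph on the set of pairs is connected, in which two pairs are joined if the second derivative of
`F` at `r` in the directions tangent to the corresponding plane sections is not zero. -/
theorem connected (k₀ : Type) [Field k₀] [NumberField k₀] (N m : ℕ)
    (F : MvPolynomial (Fin N) k₀)
    (hF : Irreducible (map (algebraMap k₀ (AlgebraicClosure k₀)) F))
    (r : Fin N → AlgebraicClosure k₀)
    (p s : Fin m → Fin N) (hm : 0 < m) (hps : ∀ i, p i ≠ s i)
    (hcov : ∀ l, ∃ i, l = p i ∨ l = s i)
    (hpt : ∀ i, CubicPoint (map (algebraMap k₀ (AlgebraicClosure k₀)) F) (p i) (s i) r ∨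
      QuadraticPoint (map (algebraMap k₀ (AlgebraicClosure k₀)) F) (p i) (s i) r)
    (hconn : ∀ i j, Relation.ReflTransGen (fun a b =>
      hessian (map (algebraMap k₀ (AlgebraicClosure k₀)) F) r
      (valueAt (planeField (map (algebraMap k₀ (AlgebraicClosure k₀)) F) (p a) (s a)) r)
      (valueAt (planeField (map (algebraMap k₀ (AlgebraicClosure k₀)) F) (p b) (s b)) r) ≠ 0) i j)
    (X : Scheme.{0}) (sX : X ⟶ Spec (.of k₀))
    (f : (hypersurface F).PartialMap X) (hf : IsDominant f.hom)
    (hfk : f.hom ≫ sX = f.domain.ι ≫ hypersurfaceStr F) :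
    PotentiallyDense sX :=
  Pool.Agent.W572.G.main_hessian k₀ N m F hF r p s hm hps hcov hpt hconn X sX f hf hfk

/-- The case of hypersurfaces of multidegree `(3, …, 3)` in products of `m` planes, in normal form at
the origin: the origin lies on the hypersurface and is a flex of its `m` plane sections, with the
axes of the variables `p i` as inflectional tangent lines, and the monomials `y_{p i} y_{p j}` with
nonzero coefficient in `F` make a connected graph. -/
theorem products_of_planes (k₀ : Type) [Field k₀] [NumberField k₀] (N m : ℕ)
    (F : MvPolynomial (Fin N) k₀)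
    (hF : Irreducible (map (algebraMap k₀ (AlgebraicClosure k₀)) F))
    (p s : Fin m → Fin N) (hm : 0 < m) (hps : ∀ i, p i ≠ s i)
    (hcov : ∀ l, ∃ i, l = p i ∨ l = s i)
    (hdeg : ∀ i, ∀ d ∈ F.support, d (p i) + d (s i) ≤ 3)
    (h0 : coeff 0 F = 0) (h1 : ∀ i, coeff (Finsupp.single (p i) 1) F = 0)
    (h2 : ∀ i, coeff (Finsupp.single (p i) 2) F = 0)
    (h3 : ∀ i, coeff (Finsupp.single (p i) 3) F ≠ 0)
    (hs : ∀ i, coeff (Finsupp.single (s i) 1) F ≠ 0)
    (hconn : ∀ i j, Relation.ReflTransGen (fun a b =>
      coeff (Finsupp.single (p a) 1 + Finsupp.single (p b) 1) F ≠ 0) i j)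
    (X : Scheme.{0}) (sX : X ⟶ Spec (.of k₀))
    (f : (hypersurface F).PartialMap X) (hf : IsDominant f.hom)
    (hfk : f.hom ≫ sX = f.domain.ι ≫ hypersurfaceStr F) :
    PotentiallyDense sX :=
  Pool.Agent.W572.G.main_planes k₀ N m F hF p s hm hps hcov hdeg h0 h1 h2 h3 hs hconn X sX f hf hfk

end Pool.Agent.Results.MP_9410e4_ag.PlaneSections
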